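import Pool.Agent.helper93.FX.Unif
import Pool.Agent.helper84.FS.Ball
import Pool.Agent.helper52.FS.SpecD

/-!
# MP_07c750: the final theorem of the project FS
-/

set_option autoImplicit false

open scoped MatrixGroups ContDiff Topology UpperHalfPlane ENNReal NNReal
open UpperHalfPlane MeasureTheory Filter Set

namespace Pool.Agent.LP

open Pool.Agent.RS
open Pool.Agent.MS (bq BB BA SF pf)
open Pool.Agent.EN (XG MG mkX mkM fl pr)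

/-- **FS**: one lift; the share `ε r` and the time `n0 r e` depend on the surface only. -/
theorem dense_final (hFSD : FS.FSD_stmt) (hFBT : FS.FBT_stmt) (hFBI : FS.FBI_stmt) (Γ : Subgroup SL(2, ℝ)) (hΓ : QU.SurfaceGroup Γ) :
    ∃ (ε : ℝ → ℝ) (n0 : ℝ → ℝ → ℕ), (∀ r : ℝ, 0 < r → 0 < ε r) ∧ ∀ (F : Set ℍ) (s : ℕ → ℝ) (φ : ℕ → ℍ → ℂ) (ν : Measure (MG Γ)),
      IsFundamentalDomain Γ F (volume : Measure ℍ) → Tendsto s atTop atTop → (∀ k, Eig Γ (s k) (φ k)) → (∀ k, ∫ z in F, ‖φ k z‖ ^ 2 = 1) → IsFiniteMeasure ν →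
      (∀ V : MG Γ → ℝ, Continuous V → Tendsto (fun k => ∫ z in F, V (mkM Γ z) * ‖φ k z‖ ^ 2) atTop (𝓝 (∫ x, V x ∂ν))) →
      ∃ μ : Measure (XG Γ), IsProbabilityMeasure μ ∧ (∀ t, μ.map (fl Γ t) = μ) ∧ μ.map (pr Γ) = ν ∧
        MeasurableSet {x : XG Γ | ¬ Dense (range fun t : ℝ => fl Γ t x)} ∧ μ {x : XG Γ | ¬ Dense (range fun t : ℝ => fl Γ t x)} ≤ 1 / 2 ∧
        (∀ r : ℝ, 0 < r → μ {x : XG Γ | ∃ (y : XG Γ) (T0 : ℝ), ∀ T : ℝ, T0 ≤ T → volume.real {t : ℝ | t ∈ Icc 0 T ∧ fl Γ t x ∈ EN.Ux Γ r y} ≤ ε r * T} ≤ 1 / 2) ∧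
        ∀ r e : ℝ, 0 < r → 0 < e → ∀ n : ℕ, n0 r e ≤ n → μ {x : XG Γ | ∃ y : XG Γ, volume.real {t : ℝ | t ∈ Icc (0 : ℝ) n ∧ fl Γ t x ∈ EN.Ux Γ r y} ≤ ε r * n} ≤ ENNReal.ofReal (1 / 2 + e) := by
  classical
  obtain ⟨K, hK, HK⟩ := core_unif Γ hΓ
  have hA : ∀ r : ℝ, ∃ c : ℝ, 0 < r → 0 < c ∧ (∀ e : ℝ, 0 < e → ∃ n0 : ℕ, ∀ (μ : Measure (XG Γ)) (n : ℕ), n0 ≤ n → IsProbabilityMeasure μ → IR.GP Γ μ K →
      μ {x : XG Γ | ∃ y : XG Γ, volume.real {t : ℝ | t ∈ Icc (0 : ℝ) n ∧ fl Γ t x ∈ EN.Ux Γ r y} ≤ c * n} ≤ ENNReal.ofReal (1 / 2 + e)) ∧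
      ∀ μ : Measure (XG Γ), IsProbabilityMeasure μ → IR.GP Γ μ K →
        μ {x : XG Γ | ∃ (y : XG Γ) (T0 : ℝ), ∀ T : ℝ, T0 ≤ T → volume.real {t : ℝ | t ∈ Icc 0 T ∧ fl Γ t x ∈ EN.Ux Γ r y} ≤ c * T} ≤ 1 / 2 := by
    intro r
    by_cases hr : 0 < r
    · obtain ⟨c1, hc1, h1⟩ := hFBT Γ r hΓ hr
      obtain ⟨c2, hc2, h2⟩ := hFBI Γ r hΓ hr
      refine ⟨min c1 c2, fun _ => ⟨lt_min hc1 hc2, ?_, ?_⟩⟩
      · intro e he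
        obtain ⟨n0, hn0⟩ := h1 K e hK he
        refine ⟨n0, fun μ n hn hμ hGP => (measure_mono ?_).trans (hn0 μ n hn hμ hGP)⟩
        rintro x ⟨y, hy⟩
        exact ⟨y, hy.trans (mul_le_mul_of_nonneg_right (min_le_left _ _) (Nat.cast_nonneg n))⟩
      · intro μ hμ hGP
        refine (measure_mono ?_).trans (h2 μ K hμ hK hGP)
        rintro x ⟨y, T0, hy⟩
        refine ⟨y, max T0 0, fun T hT => (hy T ((le_max_left _ _).trans hT)).trans ?_⟩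
        exact mul_le_mul_of_nonneg_right (min_le_right _ _) ((le_max_right _ _).trans hT)
    · exact ⟨0, fun h => absurd h hr⟩
  choose ε hε using hA
  have hB : ∀ r e : ℝ, ∃ n0 : ℕ, 0 < r → 0 < e → ∀ (μ : Measure (XG Γ)) (n : ℕ), n0 ≤ n → IsProbabilityMeasure μ → IR.GP Γ μ K →
      μ {x : XG Γ | ∃ y : XG Γ, volume.real {t : ℝ | t ∈ Icc (0 : ℝ) n ∧ fl Γ t x ∈ EN.Ux Γ r y} ≤ ε r * n} ≤ ENNReal.ofReal (1 / 2 + e) := by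
    intro r e
    by_cases h : 0 < r ∧ 0 < e
    · obtain ⟨n0, hn0⟩ := (hε r h.1).2.1 e h.2
      exact ⟨n0, fun _ _ => hn0⟩
    · exact ⟨0, fun h1 h2 => absurd ⟨h1, h2⟩ h⟩
  choose n0 hn0 using hB
  refine ⟨ε, n0, fun r hr => (hε r hr).1, ?_⟩
  intro F s φ ν hF hr hφ hn hfin hν
  obtain ⟨μ, hμ, hfl, hmap, hGP⟩ := HK F s φ ν hF hr hφ hn hfin hν
  obtain ⟨h1, h2⟩ := hFSD Γ μ K hΓ hμ hK hGP
  exact ⟨μ, hμ, hfl, hmap, h1, h2, fun r hr => (hε r hr).2.2 μ hμ hGP, fun r e hr he n hn => hn0 r e hr he μ n hn hμ hGP⟩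

end Pool.Agent.LP
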