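import Pool.Agent.helper93.LQ.Fin
import Pool.Agent.helper52.FS.SpecD

/-!
# MP_07c750: the final theorem of the projects LQ and FS
-/

set_option autoImplicit false

open scoped MatrixGroups ContDiff Topology UpperHalfPlane ENNReal NNReal
open UpperHalfPlane MeasureTheory Filter Set

namespace Pool.Agent.LP

open Pool.Agent.RS
open Pool.Agent.MS (bq BB BA SF pf)
open Pool.Agent.EN (XG MG mkX mkM fl pr)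
open Pool.Agent.ER (Low)
open Pool.Agent.IR (loc)

/-- **LQ + FS** -/
theorem fx_final (hLPQ : LPQ_stmt) (hUPQ : UPQ_stmt) (hCOL : COL_stmt) (hFSD : FS.FSD_stmt) (Γ : Subgroup SL(2, ℝ)) (F : Set ℍ) (r : ℕ → ℝ) (φ : ℕ → ℍ → ℂ) (ν : Measure (MG Γ))
    (hΓ : QU.SurfaceGroup Γ) (hF : IsFundamentalDomain Γ F (volume : Measure ℍ)) (hr : Tendsto r atTop atTop) (hφ : ∀ k, Eig Γ (r k) (φ k)) (hn : ∀ k, ∫ z in F, ‖φ k z‖ ^ 2 = 1)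
    (hfin : IsFiniteMeasure ν) (hν : ∀ V : MG Γ → ℝ, Continuous V → Tendsto (fun k => ∫ z in F, V (mkM Γ z) * ‖φ k z‖ ^ 2) atTop (𝓝 (∫ x, V x ∂ν))) :
    ∃ μ : Measure (XG Γ), IsProbabilityMeasure μ ∧ (∀ t, μ.map (fl Γ t) = μ) ∧ μ.map (pr Γ) = ν ∧ (∀ a, MeasurableSet (Low Γ μ a)) ∧
      (∀ a h : ℝ, 0 ≤ a → a < 1 / 2 → 0 ≤ h → h < 1 → 3 * a + h < 2 → μ (Low Γ μ h) + μ (Low Γ μ a) ≤ 1) ∧
      (∀ A : Set (MG Γ), MeasurableSet A → μ (Low Γ μ (1 / 3)) * (volume (F ∩ {z : ℍ | mkM Γ z ∈ A}) / volume F) ≤ ν A) ∧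
      MeasurableSet {x : XG Γ | ¬ Dense (range fun t : ℝ => fl Γ t x)} ∧ μ {x : XG Γ | ¬ Dense (range fun t : ℝ => fl Γ t x)} ≤ 1 / 2 := by
  obtain ⟨-, -, -, -, -, hex⟩ := MS.A_STB
  obtain ⟨β, hβ⟩ := (hex (1 / 4) (by norm_num)).2
  obtain ⟨α, hα⟩ := (hex (1 / 8) (by norm_num)).1
  obtain ⟨F₀, hF₀, hn0, μ, hμ, hfl, hmap, hMP, HU⟩ := IR.core_lift β α hβ hα Γ F r φ ν hΓ hF hr hφ hn hfin hν
  obtain ⟨hR, hU⟩ := lq_core hLPQ hUPQ hCOL Γ F F₀ β α r φ μ ν hΓ hF hF₀ hβ hα hr hφ hn0 hfin hμ hfl hmap hMP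
  obtain ⟨K, hK, HK⟩ := IR.core_gp Γ F₀ β α hΓ hF₀ hβ hα
  have hGP : IR.GP Γ μ K := HK r φ μ hr hφ hn0 hμ hMP
  obtain ⟨h1, h2⟩ := hFSD Γ μ K hΓ hμ hK hGP
  exact ⟨μ, hμ, hfl, hmap, fun a => ER.Low_meas Γ hΓ μ hμ a, hR, hU, h1, h2⟩

end Pool.Agent.LP
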