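import Pool.Agent.helper25.IR.T1Fin

/-!
# MP_07c750: one constant `K` and one lift for all quantum limits of a surface
-/

set_option autoImplicit false

open scoped MatrixGroups ContDiff Topology UpperHalfPlane ENNReal NNReal
open UpperHalfPlane MeasureTheory Filter Set

namespace Pool.Agent.LP

open Pool.Agent.RS
open Pool.Agent.MS (bq BB BA SF pf)
open Pool.Agent.EN (XG MG mkX mkM fl pr)

/-- **The lift with the property GP, with a constant `K` which depends on the surface only.** -/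
theorem core_unif (Γ : Subgroup SL(2, ℝ)) (hΓ : QU.SurfaceGroup Γ) : ∃ K : ℝ, 1 ≤ K ∧ ∀ (F : Set ℍ) (r : ℕ → ℝ) (φ : ℕ → ℍ → ℂ) (ν : Measure (MG Γ)),
    IsFundamentalDomain Γ F (volume : Measure ℍ) → Tendsto r atTop atTop → (∀ k, Eig Γ (r k) (φ k)) → (∀ k, ∫ z in F, ‖φ k z‖ ^ 2 = 1) → IsFiniteMeasure ν →
    (∀ V : MG Γ → ℝ, Continuous V → Tendsto (fun k => ∫ z in F, V (mkM Γ z) * ‖φ k z‖ ^ 2) atTop (𝓝 (∫ x, V x ∂ν))) →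
    ∃ μ : Measure (XG Γ), IsProbabilityMeasure μ ∧ (∀ t, μ.map (fl Γ t) = μ) ∧ μ.map (pr Γ) = ν ∧ IR.GP Γ μ K := by
  obtain ⟨-, -, -, -, -, hex⟩ := MS.A_STB
  obtain ⟨β, hβ⟩ := (hex (1 / 4) (by norm_num)).2
  obtain ⟨α, hα⟩ := (hex (1 / 8) (by norm_num)).1
  obtain ⟨F₀, hF₀⟩ := QU.A_DOM Γ hΓ
  obtain ⟨K, hK, HK⟩ := IR.core_gp Γ F₀ β α hΓ hF₀ hβ hα
  refine ⟨K, hK, ?_⟩
  intro F r φ ν hF hr hφ hn hfin hν
  obtain ⟨-, -, -, -, hdob, -⟩ := QU.A_DOB Γ F₀ hΓ hF₀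
  have hdom := (hdob F hF).2
  obtain ⟨-, hprc, -, -, hsur, -, -, -, -, -, -, hmkM⟩ := EN.A_XFL Γ
  have hinv : ∀ k (γ : Γ) z, ‖φ k (γ • z)‖ ^ 2 = ‖φ k z‖ ^ 2 := by
    intro k γ z
    rw [(hφ k).2.1 γ z]
  have hn0 : ∀ k, nn F₀ (φ k) = 1 := by
    intro k
    unfold nn
    rw [← hdom _ (hinv k)]
    exact hn k
  have hν0 : ∀ V : MG Γ → ℝ, Continuous V →
      Tendsto (fun k => ∫ z in F₀, V (mkM Γ z) * ‖φ k z‖ ^ 2) atTop (𝓝 (∫ x, V x ∂ν)) := by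
    intro V hV
    refine (hν V hV).congr fun k => ?_
    refine hdom _ fun γ z => ?_
    rw [hinv k γ z, (hmkM (γ • z) z).2 ⟨γ⁻¹, by rw [inv_smul_smul]⟩]
  obtain ⟨μ, hμ, hflow, hmap, hlow⟩ := MS.A_MU Γ F₀ β α r φ ν hΓ hF₀ hβ hα hr hφ hn0 hfin hν0
  exact ⟨μ, hμ, hflow, hmap, HK r φ μ hr hφ hn0 hμ hlow⟩

end Pool.Agent.LP
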